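import Pool.Agent.MP_fe71fa_lc.H18.Iface

set_option autoImplicit false

/-! Module L: finite sets of compact elements factor through a finite lattice of the class `FL`. -/

namespace Pool.Agent.MP_fe71fa_lc.H21

open Pool.Agent.MP_fe71fa_lc.H18

/-! ### Modularity -/

theorem modular_of_inVar {L : Type} [Lattice L] (h : InVarM3 L) : IsModularLattice L := by
  rw [isModularLattice_iff_inf_sup_inf_assoc]
  intro x y z
  have key : ∀ x y z : M3, x ⊓ z ⊔ y ⊓ z = (x ⊓ z ⊔ y) ⊓ z := by decide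
  exact h (.sup (.inf (.var 0) (.var 2)) (.inf (.var 1) (.var 2)))
    (.inf (.sup (.inf (.var 0) (.var 2)) (.var 1)) (.var 2))
    (fun v => key (v 0) (v 1) (v 2)) (fun k => if k = 0 then x else if k = 1 then y else z)

/-! ### Separation -/

/-- Lattice homomorphisms to `M₃` separate points. -/
def WSep (G : Type) [Lattice G] : Prop :=
  ∀ r s : G, ¬ r ≤ s → ∃ π : LatticeHom G M3, ¬ π r ≤ π s

/-- Stretching an interval of `M₃` onto a bounded sublattice. -/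
def th (lo hi x : M3) : M3 := if lo = ⊥ ∧ hi = ⊤ then x else if x = hi then ⊤ else ⊥

theorem th_sup : ∀ lo hi x y : M3, lo ≤ x → x ≤ hi → lo ≤ y → y ≤ hi →
    th lo hi (x ⊔ y) = th lo hi x ⊔ th lo hi y := by decide +kernel

theorem th_inf : ∀ lo hi x y : M3, lo ≤ x → x ≤ hi → lo ≤ y → y ≤ hi →
    th lo hi (x ⊓ y) = th lo hi x ⊓ th lo hi y := by decide +kernel

theorem th_sep : ∀ lo hi x y : M3, lo ≤ x → x ≤ hi → lo ≤ y → y ≤ hi → ¬ x ≤ y →
    (¬ th lo hi x ≤ th lo hi y) ∧ th lo hi lo = ⊥ ∧ th lo hi hi = ⊤ := by decide +kernel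

theorem sep_of_wsep {G : Type} [Lattice G] [BoundedOrder G] (h : WSep G) (r s : G)
    (hrs : ¬ r ≤ s) : ∃ π : BoundedLatticeHom G M3, ¬ π r ≤ π s := by
  obtain ⟨π, hπ⟩ := h r s hrs
  have lo : ∀ g, π ⊥ ≤ π g := fun g => OrderHomClass.mono π bot_le
  have hi : ∀ g, π g ≤ π ⊤ := fun g => OrderHomClass.mono π le_top
  obtain ⟨h1, h2, h3⟩ := th_sep _ _ _ _ (lo r) (hi r) (lo s) (hi s) hπ
  refine ⟨{ toFun := fun g => th (π ⊥) (π ⊤) (π g)
            map_sup' := fun a b => ?_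
            map_inf' := fun a b => ?_
            map_top' := h3
            map_bot' := h2 }, h1⟩
  · rw [map_sup]; exact th_sup _ _ _ _ (lo a) (hi a) (lo b) (hi b)
  · rw [map_inf]; exact th_inf _ _ _ _ (lo a) (hi a) (lo b) (hi b)

/-! ### The finitely generated free lattice -/

/-- Renaming the variables of a term. -/
def ren (ρ : ℕ → ℕ) : LTm → LTm
  | .var i => .var (ρ i)
  | .sup p q => .sup (ren ρ p) (ren ρ q)
  | .inf p q => .inf (ren ρ p) (ren ρ q)

theorem eval_ren {L : Type} [Lattice L] (ρ : ℕ → ℕ) (v : ℕ → L) (p : LTm) :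
    (ren ρ p).eval v = p.eval (fun k => v (ρ k)) := by
  induction p with
  | var i => rfl
  | sup p q ihp ihq => simp only [ren, LTm.eval, ihp, ihq]
  | inf p q ihp ihq => simp only [ren, LTm.eval, ihp, ihq]

/-- The term function of `p` in `n + 1` variables. -/
def tf (n : ℕ) (p : LTm) : (Fin (n + 1) → M3) → M3 :=
  fun w => p.eval (fun k => w (Fin.ofNat (n + 1) k))

/-- The lattice of term functions. -/
def free (n : ℕ) : Sublattice ((Fin (n + 1) → M3) → M3) where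
  carrier := Set.range (tf n)
  supClosed' := by
    rintro _ ⟨p, rfl⟩ _ ⟨q, rfl⟩
    exact ⟨.sup p q, rfl⟩
  infClosed' := by
    rintro _ ⟨p, rfl⟩ _ ⟨q, rfl⟩
    exact ⟨.inf p q, rfl⟩

theorem wsep_free (n : ℕ) : WSep (free n) := by
  intro r s hrs
  have : ¬ (r : (Fin (n + 1) → M3) → M3) ≤ s := hrs
  rw [Pi.le_def, not_forall] at this
  obtain ⟨w, hw⟩ := this
  exact ⟨{ toFun := fun g => (g : (Fin (n + 1) → M3) → M3) w
           map_sup' := fun a b => rfl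
           map_inf' := fun a b => rfl }, hw⟩

theorem tf_eq {L : Type} [Lattice L] (h : InVarM3 L) {n : ℕ} (e : Fin (n + 1) → L) {p q : LTm}
    (hpq : tf n p = tf n q) :
    p.eval (fun k => e (Fin.ofNat (n + 1) k)) = q.eval (fun k => e (Fin.ofNat (n + 1) k)) := by
  have key := h (ren (fun k => (Fin.ofNat (n + 1) k).val) p)
    (ren (fun k => (Fin.ofNat (n + 1) k).val) q) (fun v => by
      rw [eval_ren, eval_ren]
      exact congrFun hpq (fun j => v j.val)) (fun k => e (Fin.ofNat (n + 1) k))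
  rw [eval_ren, eval_ren] at key
  have hk : ∀ k, Fin.ofNat (n + 1) (Fin.ofNat (n + 1) k).val = Fin.ofNat (n + 1) k := fun k =>
    Fin.ext (Nat.mod_mod _ _)
  simpa only [hk] using key

theorem exists_free {L : Type} [Lattice L] (h : InVarM3 L) {n : ℕ} (e : Fin (n + 1) → L) :
    ∃ φ : LatticeHom (free n) L, ∀ j, ∃ g, φ g = e j := by
  have hc : ∀ g : free n, ∃ p, tf n p = g := fun g => g.2
  choose c hc using hc
  have hv : ∀ (g : free n) (p : LTm), tf n p = g →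
      (c g).eval (fun k => e (Fin.ofNat (n + 1) k)) = p.eval (fun k => e (Fin.ofNat (n + 1) k)) :=
    fun g p hp => tf_eq h e ((hc g).trans hp.symm)
  refine ⟨{ toFun := fun g => (c g).eval (fun k => e (Fin.ofNat (n + 1) k))
            map_sup' := fun a b => hv _ (.sup (c a) (c b)) ?_
            map_inf' := fun a b => hv _ (.inf (c a) (c b)) ?_ }, fun j => ?_⟩
  · show tf n (c a) ⊔ tf n (c b) = _
    rw [hc, hc]; rfl
  · show tf n (c a) ⊓ tf n (c b) = _
    rw [hc, hc]; rfl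
  · refine ⟨⟨tf n (.var j.val), ⟨_, rfl⟩⟩, (hv _ (.var j.val) rfl).trans ?_⟩
    simp [LTm.eval]

theorem exists_enum {L : Type} (T : Finset L) (x : L) :
    ∃ (n : ℕ) (e : Fin (n + 1) → L), ∀ t ∈ T, ∃ j, e j = t := by
  refine ⟨T.card, Fin.cons x (fun j => (T.equivFin.symm j).1), fun t ht => ?_⟩
  exact ⟨(T.equivFin ⟨t, ht⟩).succ, by simp⟩

/-- A finite lattice of the class `FL` mapping onto a sublattice containing `T`. -/
theorem exists_FL {L : Type} [Lattice L] [BoundedOrder L] (h : InVarM3 L) (T : Finset L) :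
    ∃ (G : FL) (φ : LatticeHom G L), φ ⊥ = ⊥ ∧ φ ⊤ = ⊤ ∧ (∀ g, φ g = ⊤ → g = ⊤) ∧
      ∀ t ∈ T, ∃ g, φ g = t := by
  classical
  obtain ⟨n, e, he⟩ := exists_enum (insert ⊤ (insert ⊥ T)) ⊤
  obtain ⟨φ, hφ⟩ := exists_free h e
  have hT : ∀ t ∈ insert ⊤ (insert ⊥ T), ∃ g, φ g = t := fun t ht => by
    obtain ⟨j, rfl⟩ := he t ht
    exact hφ j
  obtain ⟨gt, hgt⟩ := hT ⊤ (by simp)
  obtain ⟨gb, hgb⟩ := hT ⊥ (by simp)
  have : Nonempty (free n) := ⟨gt⟩
  let : Fintype (free n) := Fintype.ofFinite _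
  let : OrderBot (free n) := Fintype.toOrderBot _
  obtain ⟨g1, hg1, hmin⟩ := (wellFounded_lt (α := free n)).has_min {g | φ g = ⊤} ⟨gt, hgt⟩
  have hg1' : φ g1 = ⊤ := hg1
  let ι : LatticeHom (Set.Iic g1) (free n) :=
    { toFun := fun g => g.1, map_sup' := fun a b => rfl, map_inf' := fun a b => rfl }
  have hw : WSep (Set.Iic g1) := fun r s hrs => by
    obtain ⟨π, hπ⟩ := wsep_free n r.1 s.1 hrs
    exact ⟨π.comp ι, hπ⟩
  refine ⟨{ carrier := Set.Iic g1, sep := sep_of_wsep hw }, φ.comp ι, ?_, hg1', ?_, ?_⟩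
  · refine le_bot_iff.1 ?_
    rw [← hgb]
    exact OrderHomClass.mono φ (bot_le : (⊥ : free n) ≤ gb)
  · intro g hg
    refine Subtype.ext ?_
    exact eq_of_le_of_not_lt g.2 (hmin g.1 hg)
  · intro t ht
    obtain ⟨g, rfl⟩ := hT t (by simp [ht])
    refine ⟨⟨g ⊓ g1, Set.mem_Iic.2 inf_le_right⟩, ?_⟩
    show φ (g ⊓ g1) = φ g
    rw [map_inf, hg1', inf_top_eq]

/-! ### Lower adjoints -/

theorem exists_adj {G H : Type} [Lattice G] [BoundedOrder G] [Finite G] [Lattice H] [OrderTop H]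
    (f : G → H) (hinf : ∀ a b, f (a ⊓ b) = f a ⊓ f b) (htop : f ⊤ = ⊤) :
    ∃ l : H → G, GaloisConnection l f := by
  classical
  let : Fintype G := Fintype.ofFinite _
  have mono : Monotone f := fun a b hab => by
    rw [← inf_eq_left.2 hab, hinf]; exact inf_le_right
  refine ⟨fun t => (Finset.univ.filter (fun g => t ≤ f g)).inf id, fun t g => ⟨fun hle => ?_, fun hle => ?_⟩⟩
  · refine le_trans ?_ (mono hle)
    refine Finset.inf_induction (p := fun x => t ≤ f x) ?_ ?_ ?_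
    · rw [htop]; exact le_top
    · intro a ha b hb
      rw [hinf]; exact le_inf ha hb
    · intro b hb
      exact (Finset.mem_filter.1 hb).2
  · exact Finset.inf_le (f := id) (Finset.mem_filter.2 ⟨Finset.mem_univ _, hle⟩)

/-! ### Balanced triples -/

section Bal

variable {L : Type} [CompleteLattice L]

theorem compact_bot : IsCompactElement (⊥ : L) := by
  intro s u hs _ _ _
  obtain ⟨x, hx⟩ := hs
  exact ⟨x, hx, bot_le⟩

theorem compact_sup {x y : L} (hx : IsCompactElement x) (hy : IsCompactElement y) :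
    IsCompactElement (x ⊔ y) := by
  intro s u hs hd hu hle
  obtain ⟨a, ha, hxa⟩ := hx s u hs hd hu (le_sup_left.trans hle)
  obtain ⟨b, hb, hyb⟩ := hy s u hs hd hu (le_sup_right.trans hle)
  obtain ⟨c, hc, hac, hbc⟩ := hd a ha b hb
  exact ⟨c, hc, sup_le (hxa.trans hac) (hyb.trans hbc)⟩

variable [IsCompactlyGenerated L]

theorem split {x a k : L} (hx : IsCompactElement x) (h : x ≤ a ⊔ k) :
    ∃ y, IsCompactElement y ∧ y ≤ k ∧ x ≤ a ⊔ y := by
  rw [CompleteLattice.isCompactElement_iff_le_of_directed_sSup_le] at hx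
  obtain ⟨_, ⟨y, hy, hyk, rfl⟩, hle⟩ := hx {z | ∃ y, IsCompactElement y ∧ y ≤ k ∧ z = a ⊔ y}
    ⟨_, ⊥, compact_bot, bot_le, rfl⟩
    (by
      rintro _ ⟨y, hy, hyk, rfl⟩ _ ⟨z, hz, hzk, rfl⟩
      exact ⟨_, ⟨y ⊔ z, compact_sup hy hz, sup_le hyk hzk, rfl⟩,
        sup_le_sup_left le_sup_left _, sup_le_sup_left le_sup_right _⟩)
    (by
      refine h.trans (sup_le ?_ ?_)
      · exact le_sSup_of_le ⟨⊥, compact_bot, bot_le, rfl⟩ le_sup_left
      · rw [le_iff_compact_le_imp]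
        intro c hc hck
        exact le_sSup_of_le ⟨c, hc, hck, rfl⟩ le_sup_right)
  exact ⟨y, hy, hyk, hle⟩

theorem bal [IsModularLattice L] {x k l : L} (hx : IsCompactElement x) (h : x ≤ k ⊔ l) :
    ∃ y z, IsCompactElement y ∧ IsCompactElement z ∧ y ≤ k ∧ z ≤ l ∧
      x ≤ y ⊔ z ∧ y ≤ x ⊔ z ∧ z ≤ x ⊔ y := by
  obtain ⟨y1, z1, hy1, hz1, h1, h2, h3⟩ : ∃ y1 z1 : L, y1 ≤ k ∧ z1 ≤ l ∧
      x ≤ y1 ⊔ z1 ∧ y1 ≤ x ⊔ z1 ∧ z1 ≤ x ⊔ y1 := by
    refine ⟨k ⊓ (x ⊔ l), l ⊓ (x ⊔ k), inf_le_left, inf_le_left, ?_, ?_, ?_⟩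
    · rw [← sup_inf_assoc_of_le l (inf_le_left.trans le_sup_right : k ⊓ (x ⊔ l) ≤ x ⊔ k)]
      refine le_inf ?_ le_sup_left
      rw [sup_comm, ← sup_inf_assoc_of_le k (le_sup_right : l ≤ x ⊔ l)]
      exact le_inf (h.trans (sup_comm k l).le) le_sup_left
    · rw [← sup_inf_assoc_of_le l (le_sup_left : x ≤ x ⊔ k)]
      exact le_inf inf_le_right (inf_le_left.trans le_sup_right)
    · rw [← sup_inf_assoc_of_le k (le_sup_left : x ≤ x ⊔ l)]
      exact le_inf inf_le_right (inf_le_left.trans le_sup_right)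
  obtain ⟨y', hy', hy'le, hxy⟩ := split hx (h1.trans (sup_comm y1 z1).le)
  obtain ⟨z', hz', hz'le, hxz⟩ := split hx h1
  have ey : y1 ≤ y' ⊔ y1 ⊓ z1 := by
    rw [inf_comm, ← sup_inf_assoc_of_le z1 hy'le]
    exact le_inf (h2.trans (sup_le (hxy.trans (sup_comm _ _).le) le_sup_right)) le_rfl
  have ez : z1 ≤ z' ⊔ y1 ⊓ z1 := by
    rw [← sup_inf_assoc_of_le y1 hz'le]
    exact le_inf (h3.trans (sup_le (hxz.trans (sup_comm _ _).le) le_sup_right)) le_rfl
  obtain ⟨w1, hw1, hw1le, e1⟩ := split (a := y' ⊔ z') (k := y1 ⊓ z1) hx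
    (h1.trans (sup_le (ey.trans (sup_le_sup_right le_sup_left _))
      (ez.trans (sup_le_sup_right le_sup_right _))))
  obtain ⟨w2, hw2, hw2le, e2⟩ := split (a := x ⊔ z') (k := y1 ⊓ z1) hy'
    (hy'le.trans (h2.trans (sup_le (le_sup_left.trans le_sup_left)
      (ez.trans (sup_le_sup_right le_sup_right _)))))
  obtain ⟨w3, hw3, hw3le, e3⟩ := split (a := x ⊔ y') (k := y1 ⊓ z1) hz'
    (hz'le.trans (h3.trans (sup_le (le_sup_left.trans le_sup_left)
      (ey.trans (sup_le_sup_right le_sup_right _)))))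
  have hw : IsCompactElement (w1 ⊔ w2 ⊔ w3) := compact_sup (compact_sup hw1 hw2) hw3
  have hwle : w1 ⊔ w2 ⊔ w3 ≤ y1 ⊓ z1 := sup_le (sup_le hw1le hw2le) hw3le
  have l1 : w1 ≤ w1 ⊔ w2 ⊔ w3 := le_sup_left.trans le_sup_left
  have l2 : w2 ≤ w1 ⊔ w2 ⊔ w3 := le_sup_right.trans le_sup_left
  have l3 : w3 ≤ w1 ⊔ w2 ⊔ w3 := le_sup_right
  generalize w1 ⊔ w2 ⊔ w3 = w at hw hwle l1 l2 l3
  refine ⟨y' ⊔ w, z' ⊔ w, compact_sup hy' hw, compact_sup hz' hw,
    sup_le (hy'le.trans hy1) ((hwle.trans inf_le_left).trans hy1),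
    sup_le (hz'le.trans hz1) ((hwle.trans inf_le_right).trans hz1), ?_, ?_, ?_⟩
  · exact e1.trans (sup_le (sup_le_sup le_sup_left le_sup_left)
      (l1.trans (le_sup_right.trans le_sup_right)))
  · exact sup_le (e2.trans (sup_le (sup_le_sup_left le_sup_left _)
      (l2.trans (le_sup_right.trans le_sup_right)))) (le_sup_right.trans le_sup_right)
  · exact sup_le (e3.trans (sup_le (sup_le_sup_left le_sup_left _)
      (l3.trans (le_sup_right.trans le_sup_right)))) (le_sup_right.trans le_sup_right)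

end Bal

/-- The join homomorphism `M₃ → L` given by a balanced triple. -/
def tri {L : Type} [Lattice L] [OrderBot L] (x y z : L) : M3 → L
  | .bot => ⊥
  | .a => x
  | .b => y
  | .c => z
  | .top => x ⊔ y

theorem tri_le_iff {L : Type} [Lattice L] [OrderBot L] {x y z : L}
    (h3 : z ≤ x ⊔ y) (u : M3) (w : L) :
    tri x y z u ≤ w ↔ (M3.a ≤ u → x ≤ w) ∧ (M3.b ≤ u → y ≤ w) ∧ (M3.c ≤ u → z ≤ w) := by
  cases u
  · simp +decide [tri]
  · simp +decide [tri]
  · simp +decide [tri]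
  · simp +decide [tri]
  · simp +decide only [tri, sup_le_iff, true_imp_iff]
    exact ⟨fun h => ⟨h.1, h.2, h3.trans (sup_le h.1 h.2)⟩, fun h => ⟨h.1, h.2.1⟩⟩

theorem tri_sup {L : Type} [Lattice L] [OrderBot L] {x y z : L} (h1 : x ≤ y ⊔ z)
    (h2 : y ≤ x ⊔ z) (h3 : z ≤ x ⊔ y) (u v : M3) :
    tri x y z (u ⊔ v) = tri x y z u ⊔ tri x y z v := by
  refine eq_of_forall_ge_iff fun w => ?_
  rw [sup_le_iff, tri_le_iff h3, tri_le_iff h3, tri_le_iff h3]
  have k1 : y ≤ w → z ≤ w → x ≤ w := fun a b => h1.trans (sup_le a b)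
  have k2 : x ≤ w → z ≤ w → y ≤ w := fun a b => h2.trans (sup_le a b)
  have k3 : x ≤ w → y ≤ w → z ≤ w := fun a b => h3.trans (sup_le a b)
  generalize (x ≤ w) = p at k1 k2 k3 ⊢
  generalize (y ≤ w) = q at k1 k2 k3 ⊢
  generalize (z ≤ w) = r at k1 k2 k3 ⊢
  cases u <;> cases v <;> simp +decide <;> tauto

/-- Compact valued join homomorphisms below `φ`. -/
def Good {G L : Type} [Lattice G] [OrderBot G] [Lattice L] [OrderBot L] (φ ψ : G → L) : Prop :=
  (∀ r s, ψ (r ⊔ s) = ψ r ⊔ ψ s) ∧ ψ ⊥ = ⊥ ∧ (∀ r, IsCompactElement (ψ r)) ∧ ∀ r, ψ r ≤ φ r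

section Approx

variable {L : Type} [CompleteLattice L]

theorem good_bot {G : Type} [Lattice G] [OrderBot G] (φ : G → L) : Good φ (fun _ => ⊥) :=
  ⟨fun _ _ => by simp, rfl, fun _ => compact_bot, fun _ => bot_le⟩

theorem good_sup {G : Type} [Lattice G] [OrderBot G] {φ ψ χ : G → L} (h1 : Good φ ψ)
    (h2 : Good φ χ) : Good φ (fun r => ψ r ⊔ χ r) :=
  ⟨fun r s => by beta_reduce; rw [h1.1, h2.1, sup_sup_sup_comm], by simp [h1.2.1, h2.2.1],
    fun r => compact_sup (h1.2.2.1 r) (h2.2.2.1 r), fun r => sup_le (h1.2.2.2 r) (h2.2.2.2 r)⟩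

theorem good_tri {f : M3 → L} (hf : ∀ u v, f (u ⊔ v) = f u ⊔ f v) {x y z : L}
    (hx : IsCompactElement x) (hy : IsCompactElement y) (hz : IsCompactElement z)
    (lx : x ≤ f .a) (ly : y ≤ f .b) (lz : z ≤ f .c) (h1 : x ≤ y ⊔ z)
    (h2 : y ≤ x ⊔ z) (h3 : z ≤ x ⊔ y) : Good f (tri x y z) := by
  refine ⟨tri_sup h1 h2 h3, rfl, fun u => ?_, fun u => ?_⟩
  · cases u
    exacts [compact_bot, hx, hy, hz, compact_sup hx hy]
  · cases u
    exacts [bot_le, lx, ly, lz, (sup_le_sup lx ly).trans (hf .a .b).ge]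

variable [IsCompactlyGenerated L] [IsModularLattice L]

theorem approx_atom {f : M3 → L} (hf : ∀ u v, f (u ⊔ v) = f u ⊔ f v) {u : M3}
    (hu : u = .a ∨ u = .b ∨ u = .c) {x : L} (hx : IsCompactElement x) (hle : x ≤ f u) :
    ∃ g, Good f g ∧ x ≤ g u := by
  have mono : ∀ u, f u ≤ f .top := fun u => by
    have : u ⊔ M3.top = M3.top := by revert u; decide
    rw [← this, hf]; exact le_sup_left
  rcases hu with rfl | rfl | rfl
  · obtain ⟨y, z, hy, hz, ly, lz, h1, h2, h3⟩ := bal hx (hle.trans ((mono _).trans (hf .b .c).le))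
    exact ⟨_, good_tri hf hx hy hz hle ly lz h1 h2 h3, le_rfl⟩
  · obtain ⟨y, z, hy, hz, ly, lz, h1, h2, h3⟩ := bal hx (hle.trans ((mono _).trans (hf .a .c).le))
    exact ⟨_, good_tri hf hy hx hz ly hle lz h2 h1 (h3.trans (sup_comm _ _).le), le_rfl⟩
  · obtain ⟨y, z, hy, hz, ly, lz, h1, h2, h3⟩ := bal hx (hle.trans ((mono _).trans (hf .a .b).le))
    exact ⟨_, good_tri hf hy hz hx ly lz hle (h2.trans (sup_comm _ _).le)
      (h3.trans (sup_comm _ _).le) h1, le_rfl⟩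

theorem approx (G : FL) (φ : LatticeHom G L) (hb : φ ⊥ = ⊥) (r : G) :
    φ r ≤ sSup {x | ∃ ψ, Good φ ψ ∧ x = ψ r} := by
  classical
  set S := sSup {x | ∃ ψ, Good φ ψ ∧ x = ψ r} with hS
  let : Fintype G := Fintype.ofFinite _
  let m : G := (Finset.univ.filter (fun g => φ g ≤ S)).sup id
  have hm : φ m ≤ S := by
    refine Finset.sup_induction (p := fun g => φ g ≤ S) ?_ ?_ ?_
    · rw [hb]; exact bot_le
    · intro a ha b hb
      rw [map_sup]; exact sup_le ha hb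
    · intro b hb
      exact (Finset.mem_filter.1 hb).2
  refine le_trans (OrderHomClass.mono φ ?_) hm
  by_contra hrm
  obtain ⟨π, hπ⟩ := G.sep r m hrm
  apply hπ
  obtain ⟨l, gc⟩ := exists_adj π (map_inf π) (map_top π)
  refine gc.le_iff_le.1 (Finset.le_sup (f := id) (Finset.mem_filter.2 ⟨Finset.mem_univ _, ?_⟩))
  have hf : ∀ u v, φ (l (u ⊔ v)) = φ (l u) ⊔ φ (l v) := fun u v => by rw [gc.l_sup, map_sup]
  have atom : ∀ u : M3, (u = .a ∨ u = .b ∨ u = .c) → u ≤ π r → φ (l u) ≤ S := by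
    intro u hu hur
    rw [le_iff_compact_le_imp]
    intro x hx hle
    obtain ⟨g, hg, hxg⟩ := approx_atom (f := fun u => φ (l u)) hf hu hx hle
    have hψ : Good φ (fun s => g (π s)) :=
      ⟨fun s t => by beta_reduce; rw [map_sup, hg.1], by beta_reduce; rw [map_bot, hg.2.1],
        fun s => hg.2.2.1 _,
        fun s => (hg.2.2.2 _).trans (OrderHomClass.mono φ (gc.l_u_le s))⟩
    refine hxg.trans (le_sSup_of_le ⟨_, hψ, rfl⟩ ?_)
    show g u ≤ g (π r)
    rw [← sup_eq_right.2 hur, hg.1]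
    exact le_sup_left
  generalize π r = u at atom
  cases u
  · have : l M3.bot = ⊥ := gc.l_bot
    rw [this, hb]; exact bot_le
  · exact atom _ (by simp) le_rfl
  · exact atom _ (by simp) le_rfl
  · exact atom _ (by simp) le_rfl
  · exact (hf .a .b).le.trans (sup_le (atom _ (by simp) (by decide)) (atom _ (by simp) (by decide)))

theorem approx_compact (G : FL) (φ : LatticeHom G L) (hb : φ ⊥ = ⊥) (r : G) {x : L}
    (hx : IsCompactElement x) (hle : x ≤ φ r) : ∃ ψ, Good φ ψ ∧ x ≤ ψ r := by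
  rw [CompleteLattice.isCompactElement_iff_le_of_directed_sSup_le] at hx
  obtain ⟨_, ⟨ψ, hψ, rfl⟩, h⟩ := hx {x | ∃ ψ, Good φ ψ ∧ x = ψ r} ⟨_, _, good_bot φ, rfl⟩
    (by
      rintro _ ⟨ψ, hψ, rfl⟩ _ ⟨χ, hχ, rfl⟩
      exact ⟨_, ⟨_, good_sup hψ hχ, rfl⟩, le_sup_left, le_sup_right⟩)
    (hle.trans (approx G φ hb r))
  exact ⟨ψ, hψ, h⟩

end Approx

theorem lat : LatStmt := by
  intro L _ _ hV htop T hT
  classical
  have := modular_of_inVar hV
  obtain ⟨G, φ, hb, ht, ht', hφ⟩ := exists_FL hV T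
  obtain ⟨i, gc⟩ := exists_adj φ (map_inf φ) ht
  have itop : i ⊤ = ⊤ := ht' _ (top_le_iff.1 (gc.le_u_l ⊤))
  have key : ∀ U : Finset L, (∀ t ∈ U, IsCompactElement t) →
      ∃ ψ, Good φ ψ ∧ ∀ t ∈ U, t ≤ ψ (i t) := by
    intro U
    induction U using Finset.induction_on with
    | empty => exact fun _ => ⟨_, good_bot φ, by simp⟩
    | insert t U _ ih =>
      intro hU
      obtain ⟨ψ, hψ, h1⟩ := ih (fun s hs => hU s (Finset.mem_insert_of_mem hs))
      obtain ⟨χ, hχ, h2⟩ := approx_compact G φ hb (i t) (hU t (Finset.mem_insert_self _ _))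
        (gc.le_u_l t)
      refine ⟨_, good_sup hψ hχ, fun s hs => ?_⟩
      rcases Finset.mem_insert.1 hs with rfl | hs
      · exact h2.trans le_sup_right
      · exact (h1 s hs).trans le_sup_left
  obtain ⟨ψ, hψ, h⟩ := key (insert ⊤ T) (fun t ht => by
    rcases Finset.mem_insert.1 ht with rfl | ht
    exacts [htop, hT t ht])
  refine ⟨G, i, ψ, ⟨fun r s => gc.l_sup, gc.l_bot, itop⟩, ⟨hψ.1, hψ.2.1, ?_⟩, hψ.2.2.1,
    fun t ht => le_antisymm ?_ (h t (Finset.mem_insert_of_mem ht))⟩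
  · have := h ⊤ (Finset.mem_insert_self _ _)
    rw [itop] at this
    exact top_le_iff.1 this
  · obtain ⟨g, rfl⟩ := hφ t ht
    exact (hψ.2.2.2 _).trans (OrderHomClass.mono φ (gc.l_u_le g))

end Pool.Agent.MP_fe71fa_lc.H21
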