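import Pool.Agent.MP_fe71fa_lc.H18.Iface2

set_option autoImplicit false

/-! The tower of finite lattices approximating `WithTop L`. -/

namespace Pool.Agent.MP_fe71fa_lc.H21

open Pool.Agent.MP_fe71fa_lc.H18

theorem map_eval {A B : Type} [Lattice A] [Lattice B] (f : A → B)
    (hs : ∀ a b, f (a ⊔ b) = f a ⊔ f b) (hi : ∀ a b, f (a ⊓ b) = f a ⊓ f b) (v : ℕ → A) (p : LTm) :
    f (p.eval v) = p.eval (fun k => f (v k)) := by
  induction p with
  | var i => rfl
  | sup p q ihp ihq => simp only [LTm.eval, hs, ihp, ihq]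
  | inf p q ihp ihq => simp only [LTm.eval, hi, ihp, ihq]

section

variable {L : Type} [CompleteLattice L]

/-- First coordinate of the embedding of `WithTop L` into `L × M₃`. -/
def pr1 : WithTop L → L
  | ⊤ => ⊤
  | (x : L) => x

/-- Second coordinate of the embedding of `WithTop L` into `L × M₃`. -/
def pr2 : WithTop L → M3
  | ⊤ => ⊤
  | (_ : L) => ⊥

theorem inVar_withTop (h : InVarM3 L) : InVarM3 (WithTop L) := by
  intro p q hpq v
  have s1 : ∀ a b : WithTop L, pr1 (a ⊔ b) = pr1 a ⊔ pr1 b := by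
    intro a b
    cases a <;> cases b <;> simp [pr1, ← WithTop.coe_sup]
  have i1 : ∀ a b : WithTop L, pr1 (a ⊓ b) = pr1 a ⊓ pr1 b := by
    intro a b
    cases a <;> cases b <;> simp [pr1, ← WithTop.coe_inf]
  have s2 : ∀ a b : WithTop L, pr2 (a ⊔ b) = pr2 a ⊔ pr2 b := by
    intro a b
    cases a <;> cases b <;> simp [pr2, ← WithTop.coe_sup]
  have i2 : ∀ a b : WithTop L, pr2 (a ⊓ b) = pr2 a ⊓ pr2 b := by
    intro a b
    cases a <;> cases b <;> simp [pr2, ← WithTop.coe_inf]
  have e1 : pr1 (p.eval v) = pr1 (q.eval v) := by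
    rw [map_eval pr1 s1 i1, map_eval pr1 s1 i1]
    exact h p q hpq _
  have e2 : pr2 (p.eval v) = pr2 (q.eval v) := by
    rw [map_eval pr2 s2 i2, map_eval pr2 s2 i2]
    exact hpq _
  have hne : (⊥ : M3) ≠ ⊤ := by decide
  generalize p.eval v = a at e1 e2
  generalize q.eval v = b at e1 e2
  cases a <;> cases b
  · rfl
  · exact absurd e2.symm hne
  · exact absurd e2 hne
  · exact congrArg _ e1

theorem isLUB_coe {s : Set L} {u : L} (h : IsLUB s u) :
    IsLUB ((fun x : L => (x : WithTop L)) '' s) (u : WithTop L) := by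
  constructor
  · rintro _ ⟨x, hx, rfl⟩
    exact WithTop.coe_le_coe.2 (h.1 hx)
  · intro y hy
    cases y with
    | top => exact le_top
    | coe y => exact WithTop.coe_le_coe.2 (h.2 fun x hx => WithTop.coe_le_coe.1 (hy ⟨x, hx, rfl⟩))

theorem compact_top : IsCompactElement (⊤ : WithTop L) := by
  intro s u _ _ hu hle
  by_contra hcon
  push Not at hcon
  have : u ≤ ((⊤ : L) : WithTop L) := hu.2 fun x hx => by
    cases x with
    | top => exact absurd le_rfl (hcon _ hx)
    | coe x => exact WithTop.coe_le_coe.2 le_top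
  exact WithTop.not_top_le_coe _ (hle.trans this)

theorem compact_coe {x : L} : IsCompactElement (x : WithTop L) ↔ IsCompactElement x := by
  constructor
  · intro h s u hne hd hu hle
    obtain ⟨_, ⟨y, hy, rfl⟩, hxy⟩ := h _ u (hne.image _)
      (by
        rintro _ ⟨a, ha, rfl⟩ _ ⟨b, hb, rfl⟩
        obtain ⟨c, hc, hac, hbc⟩ := hd a ha b hb
        exact ⟨c, ⟨c, hc, rfl⟩, WithTop.coe_le_coe.2 hac, WithTop.coe_le_coe.2 hbc⟩)
      (isLUB_coe hu) (WithTop.coe_le_coe.2 hle)
    exact ⟨y, hy, WithTop.coe_le_coe.1 hxy⟩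
  · intro h s u hne hd hu hle
    by_cases ht : ⊤ ∈ s
    · exact ⟨⊤, ht, le_top⟩
    have hs : (fun x : L => (x : WithTop L)) '' {y : L | (y : WithTop L) ∈ s} = s := by
      ext y
      cases y with
      | top => simpa using ht
      | coe y => simp
    have hu' := isLUB_coe (isLUB_sSup {y : L | (y : WithTop L) ∈ s})
    rw [hs] at hu'
    rw [hu.unique hu'] at hle
    obtain ⟨y, hy, hxy⟩ := h {y : L | (y : WithTop L) ∈ s} _
      (by
        rw [← hs] at hne
        exact hne.of_image)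
      (by
        intro a ha b hb
        obtain ⟨c, hc, hac, hbc⟩ := hd _ ha _ hb
        cases c with
        | top => exact absurd hc ht
        | coe c => exact ⟨c, hc, WithTop.coe_le_coe.1 hac, WithTop.coe_le_coe.1 hbc⟩)
      (isLUB_sSup _) (WithTop.coe_le_coe.1 hle)
    exact ⟨y, hy, WithTop.coe_le_coe.2 hxy⟩

theorem cg_withTop [IsCompactlyGenerated L] : IsCompactlyGenerated (WithTop L) := by
  constructor
  intro x
  cases x with
  | top => exact ⟨{⊤}, by simpa using compact_top, sSup_singleton⟩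
  | coe x =>
    obtain ⟨s, hs, rfl⟩ := IsCompactlyGenerated.exists_sSup_eq x
    refine ⟨_, ?_, (isLUB_coe (isLUB_sSup s)).sSup_eq⟩
    rintro _ ⟨y, hy, rfl⟩
    exact compact_coe.2 (hs y hy)

end

/-- One level of the tower. -/
structure Stage (A : Type) [CompleteLattice A] : Type 1 where
  G : FL
  ψ : G → A
  jh : JH ψ
  cpt : ∀ r, IsCompactElement (ψ r)

theorem tower : LatStmt → TowerStmt := by
  intro hlat L _ _ hc hV
  classical
  have := cg_withTop (L := L)
  have hV' := inVar_withTop hV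
  have hc' : {a : WithTop L | IsCompactElement a}.Countable := by
    refine ((hc.image (fun x : L => (x : WithTop L))).insert ⊤).mono fun a ha => ?_
    cases a with
    | top => exact Set.mem_insert _ _
    | coe a => exact Set.mem_insert_of_mem _ ⟨a, compact_coe.1 ha, rfl⟩
  obtain ⟨s, hs⟩ := hc'.exists_eq_range ⟨⊤, compact_top⟩
  have hsc : ∀ n, IsCompactElement (s n) := fun n => by
    have : s n ∈ {a : WithTop L | IsCompactElement a} := hs ▸ ⟨n, rfl⟩
    exact this
  have step : ∀ (n : ℕ) (S : Stage (WithTop L)), ∃ (S' : Stage (WithTop L)) (i : WithTop L → S'.G),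
      JH i ∧ (∀ r, S'.ψ (i (S.ψ r)) = S.ψ r) ∧ S'.ψ (i (s n)) = s n := by
    intro n S
    obtain ⟨G, i, ψ, hi, hψ, hcp, hT⟩ := hlat (WithTop L) hV' compact_top
      (insert (s n) (Set.finite_range S.ψ).toFinset) (fun t ht => by
        rcases Finset.mem_insert.1 ht with rfl | ht
        · exact hsc n
        · obtain ⟨r, rfl⟩ := (Set.Finite.mem_toFinset _).1 ht
          exact S.cpt r)
    exact ⟨⟨G, ψ, hψ, hcp⟩, i, hi, fun r => hT _ (Finset.mem_insert_of_mem
      ((Set.Finite.mem_toFinset _).2 ⟨r, rfl⟩)), hT _ (Finset.mem_insert_self _ _)⟩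
  choose nxt i hi h1 h2 using step
  obtain ⟨G0, -, ψ0, -, hψ0, hcp0, -⟩ := hlat (WithTop L) hV' compact_top ∅ (by simp)
  let S : ℕ → Stage (WithTop L) := fun n => Nat.rec ⟨G0, ψ0, hψ0, hcp0⟩ nxt n
  refine ⟨fun n => (S n).G, fun n => (S n).ψ, fun n r => i n (S n) ((S n).ψ r),
    fun n => (S n).jh, fun n => ⟨fun a b => ?_, ?_, ?_⟩, fun n r => h1 n (S n) r,
    fun n a b hab => ?_, fun n r x hx => compact_coe.1 (hx ▸ (S n).cpt r), fun x hx => ?_⟩
  · beta_reduce
    rw [(S n).jh.1]
    exact (hi n (S n)).1 _ _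
  · beta_reduce
    rw [(S n).jh.2.1]
    exact (hi n (S n)).2.1
  · beta_reduce
    rw [(S n).jh.2.2]
    exact (hi n (S n)).2.2
  · have := (hi n (S n)).1 ((S n).ψ a) ((S n).ψ b)
    rw [sup_eq_right.2 hab] at this
    exact sup_eq_right.1 this.symm
  · have : (x : WithTop L) ∈ Set.range s := hs ▸ compact_coe.2 hx
    obtain ⟨n, hn⟩ := this
    exact ⟨n + 1, i n (S n) (s n), (h2 n (S n)).trans hn⟩

end Pool.Agent.MP_fe71fa_lc.H21
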